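import Pool.Agent.R65.UT.Few

/-!
MP_c96c3a_co: if, after negating some rows and some columns, a sign matrix of order n has
at most n + 3 entries equal to -1, then its permanent is the permanent of an upper
triangular sign matrix of order n.
-/

namespace Pool.Agent.Results.MP_c96c3a_co.FewNegatives

open Finset Matrix Pool.Agent.R65.UT

lemma permanent_scale {n : ℕ} (A : Matrix (Fin n) (Fin n) ℤ) (e d : Fin n → ℤ) :
    (Matrix.of fun i j => e i * A i j * d j).permanent = (∏ i, e i) * (∏ j, d j) * A.permanent := by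
  unfold Matrix.permanent
  rw [Finset.mul_sum]
  refine Finset.sum_congr rfl fun σ _ => ?_
  simp only [Matrix.of_apply]
  rw [Finset.prod_mul_distrib, Finset.prod_mul_distrib, Equiv.prod_comp σ e]
  ring

lemma prod_sign {n : ℕ} (e : Fin n → ℤ) (h : ∀ i, e i = 1 ∨ e i = -1) :
    (∏ i, e i) = 1 ∨ (∏ i, e i) = -1 := by
  have : ∀ s : Finset (Fin n), (∏ i ∈ s, e i) = 1 ∨ (∏ i ∈ s, e i) = -1 := by
    intro s
    induction s using Finset.induction_on with
    | empty => left; simp
    | insert a s ha ih =>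
      rw [Finset.prod_insert ha]
      rcases h a with h1 | h1 <;> rcases ih with h2 | h2 <;> simp [h1, h2]
  exact this univ

/-- the sign matrices all of whose entries below the diagonal are 1 -/
def IsUpper {n : ℕ} (B : Matrix (Fin n) (Fin n) ℤ) : Prop :=
  IsSign B ∧ ∀ i j, B i j = -1 → i ≤ j

lemma upper_of_tri {n : ℕ} (A : Matrix (Fin n) (Fin n) ℤ) (hs : IsSign A) (h : Tri A) (s : ℤ)
    (hsgn : s = 1 ∨ s = -1) (hn : 0 < n) :
    ∃ B : Matrix (Fin n) (Fin n) ℤ, IsUpper B ∧ B.permanent = s * A.permanent := by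
  obtain ⟨m, rfl⟩ : ∃ m, n = m + 1 := ⟨n - 1, by omega⟩
  obtain ⟨σ, τ, δ, hδ, hA⟩ := h
  set t : ℤ := s * ∏ j, δ j with ht
  have htv : t = 1 ∨ t = -1 := by
    rcases hsgn with h1 | h1 <;> rcases prod_sign δ hδ with h2 | h2 <;> simp [ht, h1, h2]
  let e : Fin (m+1) → ℤ := fun i => if i = 0 then t else 1
  have he : ∏ i, e i = t := by
    rw [Fin.prod_univ_succ]
    simp [e, Fin.succ_ne_zero]
  refine ⟨Matrix.of fun i j => e i * (A.submatrix σ τ) i j * δ j, ⟨fun i j => ?_, fun i j hij => ?_⟩, ?_⟩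
  · simp only [Matrix.of_apply, Matrix.submatrix_apply]
    have he1 : e i = 1 ∨ e i = -1 := by
      by_cases h0 : i = 0
      · simpa [e, h0] using htv
      · left; simp [e, h0]
    rcases he1 with h1 | h1 <;> rcases hs (σ i) (τ j) with h2 | h2 <;>
      rcases hδ j with h3 | h3 <;> simp [h1, h2, h3]
  · by_contra hlt
    push Not at hlt
    have h0 : i ≠ 0 := by
      rintro rfl
      exact absurd hlt (Fin.not_lt_zero j)
    have h1 := hA i j hlt
    simp only [Matrix.of_apply, Matrix.submatrix_apply] at hij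
    have h2 : e i = 1 := by simp [e, h0]
    rw [h2, one_mul, h1] at hij
    norm_num at hij
  · rw [permanent_scale, he, ht]
    have hp : (A.submatrix σ τ).permanent = A.permanent := by
      have h1 : A.submatrix σ τ = (A.submatrix σ id).submatrix id τ := by
        ext i j; simp
      rw [h1, Matrix.permanent_permute_rows, Matrix.permanent_permute_cols]
    rw [hp]
    have hsq : (∏ j, δ j) * (∏ j, δ j) = 1 := by
      rcases prod_sign δ hδ with h2 | h2 <;> simp [h2]
    calc s * (∏ j, δ j) * (∏ j, δ j) * A.permanent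
        = s * ((∏ j, δ j) * (∏ j, δ j)) * A.permanent := by ring
      _ = s * A.permanent := by rw [hsq, mul_one]

/-- If some matrix obtained from the sign matrix `A` of order `n` by negating rows and columns
has at most `n + 3` entries equal to `-1`, then some upper triangular sign matrix of order `n`
has the same permanent as `A`. -/
theorem result (n : ℕ) (A : Matrix (Fin n) (Fin n) ℤ) (hA : ∀ i j, A i j = 1 ∨ A i j = -1)
    (ε δ : Fin n → ℤ) (hε : ∀ i, ε i = 1 ∨ ε i = -1) (hδ : ∀ j, δ j = 1 ∨ δ j = -1)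
    (hcard : (univ.filter fun p : Fin n × Fin n => ε p.1 * A p.1 p.2 * δ p.2 = -1).card ≤ n + 3) :
    ∃ B : Matrix (Fin n) (Fin n) ℤ, (∀ i j, B i j = 1 ∨ B i j = -1) ∧
      (∀ i j, B i j = -1 → i ≤ j) ∧ B.permanent = A.permanent := by
  rcases Nat.eq_zero_or_pos n with rfl | hn
  · exact ⟨A, hA, fun i => i.elim0, rfl⟩
  · have hs : IsSign (Matrix.of fun i j => ε i * A i j * δ j) := by
      intro i j
      simp only [Matrix.of_apply]
      rcases hε i with h1 | h1 <;> rcases hA i j with h2 | h2 <;>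
        rcases hδ j with h3 | h3 <;> simp [h1, h2, h3]
    have htri := tri_of_card (Matrix.of fun i j => ε i * A i j * δ j) hs hcard
    have hsg : (∏ i, ε i) * (∏ j, δ j) = 1 ∨ (∏ i, ε i) * (∏ j, δ j) = -1 := by
      rcases prod_sign ε hε with h2 | h2 <;> rcases prod_sign δ hδ with h3 | h3 <;> simp [h2, h3]
    obtain ⟨B, ⟨hB1, hB2⟩, hB3⟩ := upper_of_tri _ hs htri _ hsg hn
    refine ⟨B, hB1, hB2, ?_⟩
    rw [hB3, permanent_scale]
    rcases hsg with h | h <;> rw [h] <;> ring

end Pool.Agent.Results.MP_c96c3a_co.FewNegatives
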