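import Pool.Agent.R65.UT.Small
import Pool.Agent.R65.UT.Upper
import Pool.Agent.R65.UT.Pair
import Pool.Agent.R65.UT.C2
import Pool.Agent.R65.UT.C4
import Pool.Agent.R65.UT.Sec
import Pool.Agent.R65.UT.Cen

/-!
MP_c96c3a_co: every value of the permanent on the sign matrices of order n which is at least
(3/4) n! in absolute value is the permanent of an upper triangular sign matrix.
-/

namespace Pool.Agent.Results.MP_c96c3a_co.TopValues

open Finset Matrix Pool.Agent.R65.UT

/-- If the permanent of the sign matrix `A` of order `n` is at least `(3/4) n!` in absolute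
value, then some upper triangular sign matrix of order `n` has the same permanent. -/
theorem result (n : ℕ) (A : Matrix (Fin n) (Fin n) ℤ) (hA : ∀ i j, A i j = 1 ∨ A i j = -1)
    (hbig : 3 * (n.factorial : ℤ) ≤ 4 * |A.permanent|) :
    ∃ B : Matrix (Fin n) (Fin n) ℤ, (∀ i j, B i j = 1 ∨ B i j = -1) ∧
      (∀ i j, B i j = -1 → i ≤ j) ∧ B.permanent = A.permanent := by
  rcases Nat.lt_or_ge 5 n with hn | hn
  · obtain ⟨ε, δ, hε, hδ, hc⟩ := few_of_large pair (second count2 count4) (center count2)
      n hn A hA hbig
    exact upper_of_few n A hA ε δ hε hδ hc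
  · obtain ⟨ε, δ, hε, hδ, hc⟩ := small n hn A hA
    exact upper_of_few n A hA ε δ hε hδ hc

end Pool.Agent.Results.MP_c96c3a_co.TopValues
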